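import Mathlib

/-!
# The cat map is not FA-recognizable with respect to any Nies-Semukhin presentation
-/

set_option autoImplicit false

namespace Pool.Agent.Results.MP_334179_al.CatMap

open Polynomial

/-! ### Definitions -/

/-- The convolution of two words: the `k`-th letter is the pair of the `k`-th letters, where `none`
is the padding symbol. -/
def conv {α : Type} (u v : List α) : List (Option α × Option α) :=
  (List.range (max u.length v.length)).map fun k => (u[k]?, v[k]?)

/-- A binary relation on words is FA-recognizable if the language of convolutions is regular. -/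
def FARecognizable {α : Type} (R : List α → List α → Prop) : Prop :=
  Language.IsRegular ({s | ∃ u v, R u v ∧ s = conv u v} : Language (Option α × Option α))

/-- The index set of the Nies-Semukhin presentations. -/
def IndexSet : Set (ℤ × ℤ) :=
  {pq | 1 + |pq.1| < |pq.2| ∧ Int.gcd pq.1 pq.2 = 1 ∧
    (pq.1 ^ 2 + 4 * pq.2 = -4 ∨ pq.1 ^ 2 + 4 * pq.2 = -3 ∨ pq.1 ^ 2 + 4 * pq.2 = 1 ∨
      pq.1 ^ 2 + 4 * pq.2 = 4 ∨ (0 < pq.1 ^ 2 + 4 * pq.2 ∧ ¬ IsSquare (pq.1 ^ 2 + 4 * pq.2)))}

/-- The alphabet `Σ_q`. -/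
abbrev Sg (q : ℤ) : Type := Set.Icc (-(|q| - 1)) (|q| - 1)

/-- The polynomial `t = x² + p x - q`. -/
noncomputable def tpoly (p q : ℤ) : ℤ[X] := X ^ 2 + C p * X - C q

/-- The polynomial `a_0 + a_1 x + ⋯ + a_k x^k` of the word `a_0 a_1 ⋯ a_k`. -/
noncomputable def poly {q : ℤ} : List (Sg q) → ℤ[X]
  | [] => 0
  | a :: w => C (a : ℤ) + X * poly w

/-- Two words are equivalent if `t` divides the difference of their polynomials. -/
def Equivalent (p q : ℤ) (u w : List (Sg q)) : Prop := tpoly p q ∣ poly u - poly w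

/-- The domain: the words which are minimal, for the length-lexicographic order, among the
equivalent words. -/
def Dom (p q : ℤ) : Set (List (Sg q)) :=
  {w | ∀ u, List.Shortlex (· < ·) u w → ¬ Equivalent p q u w}

/-- The presentation: the remainder `c_0 + c_1 x` modulo `t`. -/
noncomputable def ψ (p q : ℤ) (w : List (Sg q)) : ℤ × ℤ :=
  ((poly w %ₘ tpoly p q).coeff 0, (poly w %ₘ tpoly p q).coeff 1)

/-- The action of the matrices on the column vectors. -/
def act (A : Matrix (Fin 2) (Fin 2) ℤ) (z : ℤ × ℤ) : ℤ × ℤ :=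
  (A 0 0 * z.1 + A 0 1 * z.2, A 1 0 * z.1 + A 1 1 * z.2)

/-- A matrix is FA-recognizable with respect to `ψ_{p,q}`. -/
def MatrixRecognizable (p q : ℤ) (A : Matrix (Fin 2) (Fin 2) ℤ) : Prop :=
  FARecognizable fun u v : List (Sg q) => u ∈ Dom p q ∧ v ∈ Dom p q ∧ ψ p q v = act A (ψ p q u)

/-! ### The values of words -/

/-- Multiplication by `x`. -/
def Cm (p q : ℤ) (z : ℤ × ℤ) : ℤ × ℤ := (q * z.2, z.1 - p * z.2)

theorem Cm_add (p q : ℤ) (z w : ℤ × ℤ) : Cm p q (z + w) = Cm p q z + Cm p q w := by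
  ext
  · show q * (z.2 + w.2) = q * z.2 + q * w.2
    ring
  · show (z.1 + w.1) - p * (z.2 + w.2) = (z.1 - p * z.2) + (w.1 - p * w.2)
    ring

theorem Cm_smul (p q n : ℤ) (z : ℤ × ℤ) : Cm p q (n • z) = n • Cm p q z := by
  ext
  · show q * (n * z.2) = n * (q * z.2)
    ring
  · show n * z.1 - p * (n * z.2) = n * (z.1 - p * z.2)
    ring

theorem Cm_zero (p q : ℤ) : Cm p q 0 = 0 := by
  ext
  · show q * 0 = 0
    ring
  · show 0 - p * 0 = 0
    ring

theorem Cm_injective {p q : ℤ} (hq : q ≠ 0) : Function.Injective (Cm p q) := by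
  intro z w h
  have h1 : q * z.2 = q * w.2 := congrArg Prod.fst h
  have h2 : z.1 - p * z.2 = w.1 - p * w.2 := congrArg Prod.snd h
  have h3 := mul_left_cancel₀ hq h1
  rw [h3] at h2
  ext
  · linarith
  · exact h3

/-- The iterates. -/
def Cn (p q : ℤ) : ℕ → ℤ × ℤ → ℤ × ℤ
  | 0, z => z
  | n + 1, z => Cm p q (Cn p q n z)

theorem Cn_add (p q : ℤ) (n : ℕ) (z w : ℤ × ℤ) : Cn p q n (z + w) = Cn p q n z + Cn p q n w := by
  induction n with
  | zero => rfl
  | succ n ih =>
    show Cm p q (Cn p q n (z + w)) = _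
    rw [ih, Cm_add]
    rfl

theorem Cn_sub (p q : ℤ) (n : ℕ) (z w : ℤ × ℤ) : Cn p q n (z - w) = Cn p q n z - Cn p q n w := by
  have h := Cn_add p q n (z - w) w
  rw [sub_add_cancel] at h
  rw [h, add_sub_cancel_right]

theorem Cn_zero (p q : ℤ) (n : ℕ) : Cn p q n 0 = 0 := by
  induction n with
  | zero => rfl
  | succ n ih =>
    show Cm p q (Cn p q n 0) = 0
    rw [ih, Cm_zero]

theorem Cn_injective {p q : ℤ} (hq : q ≠ 0) (n : ℕ) : Function.Injective (Cn p q n) := by
  induction n with
  | zero => exact fun _ _ h => h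
  | succ n ih => exact fun z w h => ih (Cm_injective hq h)

theorem Cn_Cm (p q : ℤ) (n : ℕ) (z : ℤ × ℤ) : Cn p q n (Cm p q z) = Cm p q (Cn p q n z) := by
  induction n with
  | zero => rfl
  | succ n ih =>
    show Cm p q (Cn p q n (Cm p q z)) = _
    rw [ih]
    rfl

theorem Cn_Cn (p q : ℤ) (m n : ℕ) (z : ℤ × ℤ) : Cn p q (m + n) z = Cn p q n (Cn p q m z) := by
  induction n with
  | zero => rfl
  | succ n ih =>
    show Cm p q (Cn p q (m + n) z) = Cm p q (Cn p q n (Cn p q m z))
    rw [ih]

/-- The value of a word. -/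
def vs (p : ℤ) {q : ℤ} : List (Sg q) → ℤ × ℤ
  | [] => 0
  | a :: w => ((a : ℤ), 0) + Cm p q (vs p w)

theorem vs_zeros (p q : ℤ) (k : ℕ) (o : Sg q) (ho : (o : ℤ) = 0) (w : List (Sg q)) :
    vs p (List.replicate k o ++ w) = Cn p q k (vs p w) := by
  induction k with
  | zero => rfl
  | succ k ih =>
    show ((o : ℤ), 0) + Cm p q (vs p (List.replicate k o ++ w)) = _
    rw [ih, ho]
    exact zero_add _

/-- A word with value `C^k z`, `z ≠ 0`, begins with `k` zeros. -/
theorem prefix_zeros {p q : ℤ} (hq : q ≠ 0) (z : ℤ × ℤ) (hz : z ≠ 0) (k : ℕ) :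
    ∀ u : List (Sg q), vs p u = Cn p q k z →
      ∃ (l : List (Sg q)) (u' : List (Sg q)), u = l ++ u' ∧ l.length = k ∧ (∀ a ∈ l, (a : ℤ) = 0) ∧
        vs p u' = z := by
  induction k with
  | zero => exact fun u hu => ⟨[], u, rfl, rfl, by simp, hu⟩
  | succ k ih =>
    intro u hu
    rcases u with _ | ⟨a, w⟩
    · exfalso
      have h1 : Cn p q (k + 1) z = Cn p q (k + 1) 0 := by rw [Cn_zero, ← hu]; rfl
      exact hz (Cn_injective hq _ h1)
    · have h1 : (a : ℤ) + q * (vs p w).2 = q * (Cn p q k z).2 := congrArg Prod.fst hu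
      have h2 : q ∣ (a : ℤ) := ⟨(Cn p q k z).2 - (vs p w).2, by linarith⟩
      have h3 : (a : ℤ) = 0 := by
        apply Int.eq_zero_of_abs_lt_dvd ((abs_dvd _ _).2 h2)
        have h4 := a.2
        rw [Set.mem_Icc] at h4
        rw [abs_lt]
        constructor <;> linarith [h4.1, h4.2]
      have h4 : vs p w = Cn p q k z := by
        apply Cm_injective hq
        have h5 : ((a : ℤ), (0 : ℤ)) + Cm p q (vs p w) = Cm p q (Cn p q k z) := hu
        rw [h3] at h5
        rw [← h5]
        exact (zero_add _).symm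
      obtain ⟨l, u', hl1, hl2, hl3, hl4⟩ := ih w h4
      refine ⟨a :: l, u', by rw [hl1]; rfl, by rw [List.length_cons, hl2], ?_, hl4⟩
      intro b hb
      rcases List.mem_cons.1 hb with rfl | hb
      · exact h3
      · exact hl3 b hb

/-- Every element is the value of a word. -/
theorem exists_word {p q : ℤ} (hpq : 1 + |p| < |q|) (n : ℕ) : ∀ z : ℤ × ℤ,
    2 * (|z.1| + |z.2|) + (if z.1 = 0 then 1 else 0) ≤ n → ∃ w : List (Sg q), vs p w = z := by
  induction n using Nat.strong_induction_on with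
  | _ n ih =>
    intro z hz
    by_cases hz0 : z = 0
    · exact ⟨[], hz0.symm⟩
    have hp0 := abs_nonneg p
    have hq0 : q ≠ 0 := by
      rintro rfl
      rw [abs_zero] at hpq
      linarith
    have hqpos : 0 < |q| := abs_pos.2 hq0
    set a := Int.tmod z.1 q with ha
    set m := Int.tdiv z.1 q with hm
    have hdiv : q * m + a = z.1 := Int.mul_tdiv_add_tmod z.1 q
    have halt : |a| < |q| := by
      have h3 : a.natAbs = z.1.natAbs % q.natAbs := Int.natAbs_tmod _ _
      have h4 : z.1.natAbs % q.natAbs < q.natAbs := Nat.mod_lt _ (Int.natAbs_pos.2 hq0)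
      rw [← h3] at h4
      rw [Int.abs_eq_natAbs, Int.abs_eq_natAbs]
      exact_mod_cast h4
    have habs : |z.1| = |q| * |m| + |a| := by
      have h1 : z.1.natAbs = q.natAbs * (z.1.natAbs / q.natAbs) + z.1.natAbs % q.natAbs :=
        (Nat.div_add_mod _ _).symm
      have h2 : m.natAbs = z.1.natAbs / q.natAbs := Int.natAbs_tdiv _ _
      have h3 : a.natAbs = z.1.natAbs % q.natAbs := Int.natAbs_tmod _ _
      rw [← h2, ← h3] at h1
      rw [Int.abs_eq_natAbs, Int.abs_eq_natAbs, Int.abs_eq_natAbs, Int.abs_eq_natAbs]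
      exact_mod_cast h1
    set z' : ℤ × ℤ := (z.2 + p * m, m) with hz'
    have hval : (a, (0 : ℤ)) + Cm p q z' = z := by
      ext
      · show a + q * m = z.1
        linarith
      · show 0 + (z.2 + p * m - p * m) = z.2
        ring
    have hle : |z'.1| ≤ |z.2| + |p| * |m| := by
      have := abs_add_le z.2 (p * m)
      rw [abs_mul] at this
      exact this
    have hm0 := abs_nonneg m
    have ha0 := abs_nonneg a
    have hz20 := abs_nonneg z.2
    have hz10 := abs_nonneg z.1
    have hdec : 2 * (|z'.1| + |z'.2|) + (if z'.1 = 0 then 1 else 0) <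
        2 * (|z.1| + |z.2|) + (if z.1 = 0 then 1 else 0) := by
      by_cases h1 : z.1 = 0
      · have ham : m = 0 := by rw [hm, h1, Int.zero_tdiv]
        have hz'1 : z'.1 = z.2 := by rw [hz', ham]; ring
        have hz'2 : z'.2 = 0 := ham
        have hne : z.2 ≠ 0 := fun h => hz0 (Prod.ext h1 h)
        rw [hz'1, hz'2, if_neg hne, if_pos h1, h1]
        simp
      · rw [if_neg h1]
        have h2 : (if z'.1 = 0 then (1 : ℤ) else 0) ≤ 1 := by split_ifs <;> norm_num
        have h3 : |z'.1| + |z'.2| + 1 ≤ |z.1| + |z.2| := by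
          have h4 : |z'.2| = |m| := rfl
          by_cases hm' : m = 0
          · rw [hm', abs_zero, mul_zero] at hle
            rw [h4, hm', abs_zero]
            have : 1 ≤ |z.1| := Int.one_le_abs h1
            linarith
          · have h5 : 1 ≤ |m| := Int.one_le_abs hm'
            rw [h4, habs]
            nlinarith
        linarith
    have hz'0 : 0 ≤ 2 * (|z'.1| + |z'.2|) + (if z'.1 = 0 then (1 : ℤ) else 0) := by
      have : (0 : ℤ) ≤ (if z'.1 = 0 then (1 : ℤ) else 0) := by split_ifs <;> norm_num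
      positivity
    obtain ⟨w, hw⟩ := ih (2 * (|z'.1| + |z'.2|) + (if z'.1 = 0 then (1 : ℤ) else 0)).toNat
      (by omega) z' (by omega)
    refine ⟨⟨a, ?_⟩ :: w, ?_⟩
    · rw [Set.mem_Icc]
      rw [abs_lt] at halt
      constructor <;> omega
    · show (a, (0 : ℤ)) + Cm p q (vs p w) = z
      rw [hw, hval]

/-! ### Equivalence and the domain -/

theorem tpoly_eq (p q : ℤ) : tpoly p q = X ^ 2 + (C p * X - C q) := by
  unfold tpoly
  ring

theorem degree_aux (a b : ℤ) : degree (C a * X - C b) < ((2 : ℕ) : WithBot ℕ) := by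
  have : degree (C a * X - C b) ≤ 1 := by compute_degree
  exact lt_of_le_of_lt this (by norm_num)

theorem tpoly_monic (p q : ℤ) : (tpoly p q).Monic := by
  rw [tpoly_eq]
  exact monic_X_pow_add (degree_aux p q)

theorem tpoly_degree (p q : ℤ) : (tpoly p q).degree = ((2 : ℕ) : WithBot ℕ) := by
  rw [tpoly_eq, degree_add_eq_left_of_degree_lt (by rw [degree_X_pow]; exact degree_aux p q),
    degree_X_pow]

theorem poly_mod (p q : ℤ) (w : List (Sg q)) :
    poly w %ₘ tpoly p q = C (vs p w).2 * X - C (-(vs p w).1) := by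
  have h : ∃ g, (C (vs p w).2 * X - C (-(vs p w).1)) + tpoly p q * g = poly w := by
    induction w with
    | nil => exact ⟨0, by simp [vs, poly]⟩
    | cons a w ih =>
      obtain ⟨g, hg⟩ := ih
      refine ⟨X * g + C (vs p w).2, ?_⟩
      show _ = C (a : ℤ) + X * poly w
      rw [← hg]
      have h1 : (vs p (a :: w)).1 = a + q * (vs p w).2 := rfl
      have h2 : (vs p (a :: w)).2 = 0 + ((vs p w).1 - p * (vs p w).2) := rfl
      rw [h1, h2]
      unfold tpoly
      simp only [map_add, map_sub, map_mul, map_neg, map_zero]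
      ring
  obtain ⟨g, hg⟩ := h
  refine (div_modByMonic_unique g _ (tpoly_monic p q) ⟨hg, ?_⟩).2
  rw [tpoly_degree]
  exact degree_aux _ _

theorem ψ_eq (p q : ℤ) (w : List (Sg q)) : ψ p q w = vs p w := by
  unfold ψ
  rw [poly_mod]
  ext
  · show (C (vs p w).2 * X - C (-(vs p w).1)).coeff 0 = _
    rw [coeff_sub, coeff_C_mul, coeff_X_zero, coeff_C_zero]
    ring
  · show (C (vs p w).2 * X - C (-(vs p w).1)).coeff 1 = _
    rw [coeff_sub, coeff_C_mul, coeff_X_one, coeff_C_of_ne_zero one_ne_zero]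
    ring

theorem equivalent_iff (p q : ℤ) (u w : List (Sg q)) : Equivalent p q u w ↔ vs p u = vs p w := by
  unfold Equivalent
  rw [← modByMonic_eq_zero_iff_dvd (tpoly_monic p q), sub_modByMonic, sub_eq_zero]
  constructor
  · intro h
    rw [← ψ_eq, ← ψ_eq]
    unfold ψ
    rw [h]
  · intro h
    rw [poly_mod, poly_mod, h]

theorem dom_unique {p q : ℤ} {u w : List (Sg q)} (hu : u ∈ Dom p q) (hw : w ∈ Dom p q)
    (h : vs p u = vs p w) : u = w := by
  have h1 : ¬ List.Shortlex (· < ·) u w := fun hs => hw u hs ((equivalent_iff _ _ _ _).2 h)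
  have h2 : ¬ List.Shortlex (· < ·) w u := fun hs => hu w hs ((equivalent_iff _ _ _ _).2 h.symm)
  exact (inferInstance : Std.Trichotomous (List.Shortlex ((· < ·) : Sg q → Sg q → Prop))).trichotomous
    _ _ h1 h2

theorem exists_dom {p q : ℤ} (hpq : 1 + |p| < |q|) (z : ℤ × ℤ) : ∃ w ∈ Dom p q, vs p w = z := by
  have hwf : WellFounded (List.Shortlex ((· < ·) : Sg q → Sg q → Prop)) :=
    List.Shortlex.wf wellFounded_lt
  obtain ⟨w0, hw0⟩ := exists_word hpq _ z (Int.self_le_toNat _)
  obtain ⟨w, hw, hmin⟩ := hwf.has_min {w | vs p w = z} ⟨w0, hw0⟩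
  refine ⟨w, fun u hu he => hmin u ?_ hu, hw⟩
  exact ((equivalent_iff _ _ _ _).1 he).trans hw

theorem dom_length {p q : ℤ} {u w : List (Sg q)} (hu : u ∈ Dom p q) (h : vs p u = vs p w) :
    u.length ≤ w.length := by
  by_contra hcon
  push Not at hcon
  exact hu w (List.Shortlex.of_length_lt hcon) ((equivalent_iff _ _ _ _).2 h.symm)

/-! ### Padded words -/

/-- The value of a padded word. -/
def vp (p : ℤ) {q : ℤ} : List (Option (Sg q)) → ℤ × ℤ
  | [] => 0
  | none :: w => Cm p q (vp p w)
  | some a :: w => ((a : ℤ), 0) + Cm p q (vp p w)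

theorem vp_append (p : ℤ) {q : ℤ} (x y : List (Option (Sg q))) :
    vp p (x ++ y) = vp p x + Cn p q x.length (vp p y) := by
  induction x with
  | nil => exact (zero_add _).symm
  | cons a x ih =>
    rcases a with _ | a
    · show Cm p q (vp p (x ++ y)) = Cm p q (vp p x) + Cm p q (Cn p q x.length (vp p y))
      rw [ih, Cm_add]
    · show ((a : ℤ), 0) + Cm p q (vp p (x ++ y)) =
        ((a : ℤ), 0) + Cm p q (vp p x) + Cm p q (Cn p q x.length (vp p y))
      rw [ih, Cm_add, add_assoc]

/-- The padded word of length `n`. -/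
def pad {α : Type} (n : ℕ) (u : List α) : List (Option α) := (List.range n).map fun k => u[k]?

theorem pad_nil_succ {α : Type} (n : ℕ) : pad (n + 1) ([] : List α) = none :: pad n [] := by
  unfold pad
  rw [List.range_succ_eq_map, List.map_cons, List.map_map]
  rfl

theorem pad_cons {α : Type} (n : ℕ) (a : α) (u : List α) :
    pad (n + 1) (a :: u) = some a :: pad n u := by
  unfold pad
  rw [List.range_succ_eq_map, List.map_cons, List.map_map]
  rfl

theorem length_pad {α : Type} (n : ℕ) (u : List α) : (pad n u).length = n := by simp [pad]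

theorem vp_pad_nil (p q : ℤ) (n : ℕ) : vp p (pad n ([] : List (Sg q))) = 0 := by
  induction n with
  | zero => rfl
  | succ n ih =>
    rw [pad_nil_succ]
    show Cm p q (vp p (pad n [])) = 0
    rw [ih, Cm_zero]

theorem vp_pad (p : ℤ) {q : ℤ} (u : List (Sg q)) : ∀ n, u.length ≤ n → vp p (pad n u) = vs p u := by
  induction u with
  | nil => exact fun n _ => vp_pad_nil p q n
  | cons a u ih =>
    intro n hn
    obtain ⟨m, rfl⟩ : ∃ m, n = m + 1 := ⟨n - 1, by simp at hn; omega⟩
    rw [pad_cons]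
    show ((a : ℤ), 0) + Cm p q (vp p (pad m u)) = ((a : ℤ), 0) + Cm p q (vs p u)
    rw [ih m (by simpa using hn)]

theorem pad_append {α : Type} (l u : List α) (n : ℕ) :
    pad (l.length + n) (l ++ u) = l.map some ++ pad n u := by
  induction l with
  | nil => simp
  | cons a l ih =>
    rw [List.length_cons, show l.length + 1 + n = (l.length + n) + 1 by ring, List.cons_append,
      pad_cons, ih]
    rfl

theorem vp_zeros (p : ℤ) {q : ℤ} (l : List (Sg q)) (hl : ∀ a ∈ l, (a : ℤ) = 0) :
    vp p (l.map some) = 0 := by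
  induction l with
  | nil => rfl
  | cons a l ih =>
    show ((a : ℤ), 0) + Cm p q (vp p (l.map some)) = 0
    rw [ih fun b hb => hl b (List.mem_cons_of_mem _ hb), Cm_zero, hl a List.mem_cons_self]
    rfl

theorem conv_fst {α : Type} (u v : List α) :
    (conv u v).map Prod.fst = pad (max u.length v.length) u := by
  unfold conv pad
  rw [List.map_map]
  rfl

theorem conv_snd {α : Type} (u v : List α) :
    (conv u v).map Prod.snd = pad (max u.length v.length) v := by
  unfold conv pad
  rw [List.map_map]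
  rfl

theorem length_conv {α : Type} (u v : List α) : (conv u v).length = max u.length v.length := by
  simp [conv]

theorem vp_conv_fst (p : ℤ) {q : ℤ} (u v : List (Sg q)) :
    vp p ((conv u v).map Prod.fst) = vs p u := by
  rw [conv_fst]
  exact vp_pad p u _ (le_max_left _ _)

theorem vp_conv_snd (p : ℤ) {q : ℤ} (u v : List (Sg q)) :
    vp p ((conv u v).map Prod.snd) = vs p v := by
  rw [conv_snd]
  exact vp_pad p v _ (le_max_right _ _)

/-! ### The action -/

theorem act_add (A : Matrix (Fin 2) (Fin 2) ℤ) (z w : ℤ × ℤ) : act A (z + w) = act A z + act A w := by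
  ext
  · show A 0 0 * (z.1 + w.1) + A 0 1 * (z.2 + w.2) = _ + _
    unfold act
    ring
  · show A 1 0 * (z.1 + w.1) + A 1 1 * (z.2 + w.2) = _ + _
    unfold act
    ring

theorem act_sub (A : Matrix (Fin 2) (Fin 2) ℤ) (z w : ℤ × ℤ) : act A (z - w) = act A z - act A w := by
  have h := act_add A (z - w) w
  rw [sub_add_cancel] at h
  rw [h, add_sub_cancel_right]

theorem act_smul (A : Matrix (Fin 2) (Fin 2) ℤ) (n : ℤ) (z : ℤ × ℤ) :
    act A (n • z) = n • act A z := by
  ext
  · show A 0 0 * (n * z.1) + A 0 1 * (n * z.2) = n * (A 0 0 * z.1 + A 0 1 * z.2)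
    ring
  · show A 1 0 * (n * z.1) + A 1 1 * (n * z.2) = n * (A 1 0 * z.1 + A 1 1 * z.2)
    ring

/-! ### The automaton -/

section Automaton

variable {p q : ℤ} (hpq : 1 + |p| < |q|) (A : Matrix (Fin 2) (Fin 2) ℤ)
  {σ : Type} [Fintype σ] (M : DFA (Option (Sg q) × Option (Sg q)) σ)
  (hM : ∀ s, M.eval s ∈ M.accept ↔ ∃ u v : List (Sg q), (u ∈ Dom p q ∧ v ∈ Dom p q ∧
    vs p v = act A (vs p u)) ∧ s = conv u v)

include hM

theorem length_bound {u v : List (Sg q)} (hu : u ∈ Dom p q) (hv : v ∈ Dom p q)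
    (huv : vs p v = act A (vs p u)) : v.length ≤ u.length + Fintype.card σ := by
  by_contra hcon
  push Not at hcon
  set s := conv u v with hs
  have hlen : s.length = v.length := by
    rw [hs, length_conv]
    omega
  obtain ⟨i, j, hij, heq⟩ := Fintype.exists_ne_map_eq_of_card_lt
    (fun i : Fin (Fintype.card σ + 1) => M.eval (s.take (u.length + i))) (by simp)
  wlog hlt : i < j generalizing i j
  · exact this j i hij.symm heq.symm (lt_of_le_of_ne (not_lt.1 hlt) hij.symm)
  have hlt' : (i : ℕ) < j := hlt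
  have hj : (j : ℕ) ≤ Fintype.card σ := Nat.lt_succ_iff.1 j.2
  set s' := s.take (u.length + i) ++ s.drop (u.length + j) with hs'
  have hacc : M.eval s' ∈ M.accept := by
    have h1 : M.eval s' = M.eval s := by
      show M.evalFrom M.start s' = M.evalFrom M.start s
      rw [hs', DFA.evalFrom_of_append]
      have h2 : M.evalFrom M.start (s.take (u.length + i)) =
          M.evalFrom M.start (s.take (u.length + j)) := heq
      rw [h2, ← DFA.evalFrom_of_append, List.take_append_drop]
    rw [h1]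
    exact (hM s).2 ⟨u, v, ⟨hu, hv, huv⟩, rfl⟩
  obtain ⟨u', v', ⟨hu', hv', huv'⟩, hs''⟩ := (hM s').1 hacc
  have hnone : ∀ k, u.length ≤ k → (s.drop k).map Prod.fst = pad (s.length - k) ([] : List (Sg q)) := by
    intro k hk
    rw [List.map_drop, hs, conv_fst, length_conv]
    unfold pad
    rw [← List.map_drop]
    apply List.ext_getElem
    · simp
    · intro m h1 h2
      simp only [List.getElem_map, List.getElem_drop, List.getElem_range]
      rw [List.getElem?_eq_none (by omega)]
      rfl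
  have hval : vp p (s'.map Prod.fst) = vs p u := by
    rw [hs', List.map_append, vp_append, hnone _ (by omega), vp_pad_nil, Cn_zero, add_zero]
    have h3 : vp p (s.map Prod.fst) = vs p u := vp_conv_fst p u v
    rw [← List.take_append_drop (u.length + i) s, List.map_append, vp_append,
      hnone _ (by omega), vp_pad_nil, Cn_zero, add_zero] at h3
    exact h3
  rw [hs'', vp_conv_fst] at hval
  have huu : u' = u := dom_unique hu' hu hval
  have hvv : v' = v := dom_unique hv' hv (by rw [huv', huv, hval])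
  rw [huu, hvv] at hs''
  have h4 : s'.length = s.length := by rw [hs'', ← hs]
  rw [hs', List.length_append, List.length_take, List.length_drop] at h4
  omega

include hpq in
/-- The main step. -/
theorem swap_step (k : ℕ) (L : ℕ) (hL : ∀ i ≤ Fintype.card σ, ∃ w : List (Sg q),
    w.length ≤ L ∧ vs p w = ((i : ℤ) + 1, 0)) :
    ∃ t t' : List (Option (Sg q) × Option (Sg q)), t.length ≤ L + Fintype.card σ ∧
      t'.length ≤ L + Fintype.card σ ∧
      vp p (t'.map Prod.fst) - vp p (t.map Prod.fst) ≠ 0 ∧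
      act A (Cn p q k (vp p (t'.map Prod.fst) - vp p (t.map Prod.fst))) =
        Cn p q k (vp p (t'.map Prod.snd) - vp p (t.map Prod.snd)) := by
  have hq0 : q ≠ 0 := by
    rintro rfl
    have := abs_nonneg p
    rw [abs_zero] at hpq
    linarith
  have hex : ∀ i : Fin (Fintype.card σ + 1), ∃ s : List (Option (Sg q) × Option (Sg q)),
      M.eval s ∈ M.accept ∧ k ≤ s.length ∧ s.length ≤ k + L + Fintype.card σ ∧
      vp p ((s.take k).map Prod.fst) = 0 ∧
      vp p ((s.drop k).map Prod.fst) = ((i : ℤ) + 1, 0) := by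
    intro i
    obtain ⟨w, hwL, hw⟩ := hL i (Nat.lt_succ_iff.1 i.2)
    obtain ⟨u, hu, hu1⟩ := exists_dom (p := p) (q := q) hpq (Cn p q k ((i : ℤ) + 1, 0))
    obtain ⟨v, hv, hv1⟩ := exists_dom (p := p) (q := q) hpq (act A (vs p u))
    have hz : (((i : ℕ) : ℤ) + 1, (0 : ℤ)) ≠ 0 := by
      intro h
      have h1 : ((i : ℕ) : ℤ) + 1 = 0 := congrArg Prod.fst h
      omega
    obtain ⟨l, u', hl1, hl2, hl3, hl4⟩ := prefix_zeros hq0 _ hz k u hu1
    have hulen : u.length ≤ k + L := by
      have h0 : (0 : ℤ) ∈ Set.Icc (-(|q| - 1)) (|q| - 1) := by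
        rw [Set.mem_Icc]
        have := abs_nonneg p
        constructor <;> linarith
      have h1 := dom_length hu (w := List.replicate k (⟨0, h0⟩ : Sg q) ++ w) (by
        rw [vs_zeros p q k _ rfl, hw, hu1])
      rw [List.length_append, List.length_replicate] at h1
      omega
    have hvlen := length_bound A M hM hu hv hv1
    have hk : k ≤ (conv u v).length := by
      rw [length_conv, hl1, List.length_append, hl2]
      omega
    have hpad : (conv u v).map Prod.fst = l.map some ++ pad ((conv u v).length - k) u' := by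
      rw [conv_fst, ← length_conv, hl1, ← pad_append]
      congr 1
      rw [hl2]
      rw [← hl1]
      omega
    refine ⟨conv u v, (hM _).2 ⟨u, v, ⟨hu, hv, hv1⟩, rfl⟩, hk, ?_, ?_, ?_⟩
    · rw [length_conv]
      omega
    · rw [List.map_take, hpad, List.take_append_of_le_length (by simp [hl2]), List.take_of_length_le
        (by simp [hl2])]
      exact vp_zeros p l hl3
    · rw [List.map_drop, hpad, List.drop_append_of_le_length (by simp [hl2]), List.drop_of_length_le
        (by simp [hl2]), List.nil_append, vp_pad p u' _ ?_, hl4]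
      have h5 : u.length = k + u'.length := by rw [hl1, List.length_append, hl2]
      rw [length_conv]
      omega
  choose s hs1 hs2 hs3 hs4 hs5 using hex
  obtain ⟨i, j, hij, heq⟩ := Fintype.exists_ne_map_eq_of_card_lt
    (fun i : Fin (Fintype.card σ + 1) => M.eval ((s i).take k)) (by simp)
  have hmain : ∀ x : List (Option (Sg q) × Option (Sg q)), M.eval x ∈ M.accept →
      vp p (x.map Prod.snd) = act A (vp p (x.map Prod.fst)) := by
    intro x hx
    obtain ⟨u, v, ⟨-, -, huv⟩, rfl⟩ := (hM x).1 hx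
    rw [vp_conv_fst, vp_conv_snd, huv]
  have hsw : M.eval ((s i).take k ++ (s j).drop k) ∈ M.accept := by
    have h1 : M.eval ((s i).take k ++ (s j).drop k) = M.eval (s j) := by
      show M.evalFrom M.start _ = M.evalFrom M.start _
      rw [DFA.evalFrom_of_append]
      have h2 : M.evalFrom M.start ((s i).take k) = M.evalFrom M.start ((s j).take k) := heq
      rw [h2, ← DFA.evalFrom_of_append, List.take_append_drop]
    rw [h1]
    exact hs1 j
  have e1 := hmain _ hsw
  have e2 := hmain _ (hs1 i)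
  have hlk : ∀ f : (Option (Sg q) × Option (Sg q)) → Option (Sg q),
      (((s i).take k).map f).length = k := by
    intro f
    rw [List.length_map, List.length_take]
    exact min_eq_left (hs2 i)
  rw [List.map_append, List.map_append, vp_append, vp_append, hlk, hlk, act_add] at e1
  rw [← List.take_append_drop k (s i), List.map_append, List.map_append, vp_append, vp_append,
    hlk, hlk, act_add] at e2
  refine ⟨(s i).drop k, (s j).drop k, ?_, ?_, ?_, ?_⟩
  · rw [List.length_drop]
    have := hs3 i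
    omega
  · rw [List.length_drop]
    have := hs3 j
    omega
  · rw [hs5, hs5]
    intro h
    have h1 : (((j : ℕ) : ℤ) + 1) - (((i : ℕ) : ℤ) + 1) = 0 := congrArg Prod.fst h
    apply hij
    ext
    omega
  · rw [Cn_sub, act_sub, Cn_sub]
    have e3 := congrArg₂ (· - ·) e1 e2
    simp only [add_sub_add_left_eq_sub] at e3
    exact e3.symm

end Automaton

/-! ### Linear algebra -/

theorem Cm_Cm (p q : ℤ) (z : ℤ × ℤ) : Cm p q (Cm p q z) = (-p) • Cm p q z + q • z := by
  ext
  · show q * (z.1 - p * z.2) = -p * (q * z.2) + q * z.1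
    ring
  · show q * z.2 - p * (z.1 - p * z.2) = -p * (z.1 - p * z.2) + q * z.2
    ring

/-- The Lucas sequence. -/
def U (p q : ℤ) : ℕ → ℤ
  | 0 => 0
  | 1 => 1
  | n + 2 => -p * U p q (n + 1) + q * U p q n

theorem Cn_U (p q : ℤ) (j : ℕ) (z : ℤ × ℤ) :
    Cn p q (j + 1) z = U p q (j + 1) • Cm p q z + (q * U p q j) • z := by
  induction j with
  | zero =>
    show Cm p q z = (1 : ℤ) • Cm p q z + (q * 0) • z
    rw [one_smul, mul_zero, zero_smul, add_zero]
  | succ j ih =>
    show Cm p q (Cn p q (j + 1) z) = (-p * U p q (j + 1) + q * U p q j) • Cm p q z +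
      (q * U p q (j + 1)) • z
    rw [ih, Cm_add, Cm_smul, Cm_smul, Cm_Cm]
    module

theorem U_coprime {p q : ℤ} (h : IsCoprime p q) (j : ℕ) : IsCoprime (U p q (j + 1)) q := by
  induction j with
  | zero => exact isCoprime_one_left
  | succ j ih =>
    show IsCoprime (-p * U p q (j + 1) + q * U p q j) q
    rw [IsCoprime.add_mul_left_left_iff]
    exact (h.neg_left).mul_left ih

theorem sqrt_five {m n : ℤ} (h : m ^ 2 = 5 * n ^ 2) : n = 0 := by
  by_contra hn
  have hn' : (n : ℚ) ≠ 0 := by exact_mod_cast hn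
  have h1 : ((m : ℚ) / n) ^ 2 = 5 := by
    rw [div_pow, div_eq_iff (pow_ne_zero 2 hn')]
    exact_mod_cast h
  have h2 : IsSquare (5 : ℚ) := ⟨(m : ℚ) / n, by rw [← h1]; ring⟩
  revert h2
  norm_num

/-- The matrix of the cat map. -/
def catMatrix : Matrix (Fin 2) (Fin 2) ℤ := !![2, 1; 1, 1]

theorem not_comm {p q : ℤ} (hq : q ≠ 1) (y : ℤ × ℤ)
    (h : act catMatrix (Cm p q y) = Cm p q (act catMatrix y)) : y = 0 := by
  have h1 : 2 * (q * y.2) + 1 * (y.1 - p * y.2) = q * (1 * y.1 + 1 * y.2) := congrArg Prod.fst h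
  have h2 : 1 * (q * y.2) + 1 * (y.1 - p * y.2) = (2 * y.1 + 1 * y.2) - p * (1 * y.1 + 1 * y.2) :=
    congrArg Prod.snd h
  have ha : q - 1 ≠ 0 := sub_ne_zero.2 hq
  have e1 : (q - 1) * y.2 = (1 - p) * y.1 := by linarith
  have e2 : (q - 1) * y.1 = ((q - 1) + (1 - p)) * y.2 := by linarith
  by_cases hy : y.1 = 0
  · rw [hy, mul_zero] at e1
    rcases mul_eq_zero.1 e1 with h3 | h3
    · exact (ha h3).elim
    · exact Prod.ext hy h3
  · exfalso
    have e3 : y.1 * ((q - 1) ^ 2 - (q - 1) * (1 - p) - (1 - p) ^ 2) = 0 := by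
      have : (q - 1) * ((q - 1) * y.1) = ((q - 1) + (1 - p)) * ((1 - p) * y.1) := by
        rw [e2, ← e1]
        ring
      linarith
    rcases mul_eq_zero.1 e3 with h3 | h3
    · exact hy h3
    · have h4 : (2 * (q - 1) - (1 - p)) ^ 2 = 5 * (1 - p) ^ 2 := by linarith
      have h5 := sqrt_five h4
      rw [h5] at h4
      have h6 : 2 * (q - 1) - 0 = 0 := by
        have : (2 * (q - 1) - 0) ^ 2 = 0 := by rw [h4]; ring
        exact pow_eq_zero_iff (two_ne_zero) |>.1 this
      omega

theorem not_recognizable {p q : ℤ} (h : (p, q) ∈ IndexSet) :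
    ¬ MatrixRecognizable p q catMatrix := by
  rintro ⟨σ, _, M, hacc⟩
  obtain ⟨hpq', hcop', -⟩ := h
  have hpq : 1 + |p| < |q| := hpq'
  have hcop : IsCoprime p q := Int.isCoprime_iff_gcd_eq_one.2 hcop'
  have hM : ∀ s, M.eval s ∈ M.accept ↔ ∃ u v : List (Sg q), (u ∈ Dom p q ∧ v ∈ Dom p q ∧
      vs p v = act catMatrix (vs p u)) ∧ s = conv u v := by
    intro s
    rw [← DFA.mem_accepts, hacc]
    constructor
    · rintro ⟨u, v, ⟨h1, h2, h3⟩, h4⟩
      rw [ψ_eq, ψ_eq] at h3
      exact ⟨u, v, ⟨h1, h2, h3⟩, h4⟩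
    · rintro ⟨u, v, ⟨h1, h2, h3⟩, h4⟩
      refine ⟨u, v, ⟨h1, h2, ?_⟩, h4⟩
      rw [ψ_eq, ψ_eq]
      exact h3
  have hp0 := abs_nonneg p
  have hq0 : q ≠ 0 := by
    rintro rfl
    rw [abs_zero] at hpq
    linarith
  have hq1 : q ≠ 1 := by
    rintro rfl
    rw [abs_one] at hpq
    linarith
  have hqu : ¬ IsUnit q := by
    intro hu
    rcases Int.isUnit_iff.1 hu with h | h
    · exact hq1 h
    · rw [h] at hpq
      norm_num at hpq
      linarith
  -- a bound for the lengths
  obtain ⟨L, hL⟩ : ∃ L : ℕ, ∀ i ≤ Fintype.card σ, ∃ w : List (Sg q),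
      w.length ≤ L ∧ vs p w = ((i : ℤ) + 1, 0) := by
    have h1 : ∀ n : ℕ, ∃ L : ℕ, ∀ i ≤ n, ∃ w : List (Sg q),
        w.length ≤ L ∧ vs p w = ((i : ℤ) + 1, 0) := by
      intro n
      induction n with
      | zero =>
        obtain ⟨w, -, hw⟩ := exists_dom (p := p) (q := q) hpq (((0 : ℕ) : ℤ) + 1, 0)
        refine ⟨w.length, fun i hi => ⟨w, le_rfl, ?_⟩⟩
        obtain rfl : i = 0 := by omega
        exact hw
      | succ n ih =>
        obtain ⟨L, hL⟩ := ih
        obtain ⟨w, -, hw⟩ := exists_dom (p := p) (q := q) hpq (((n + 1 : ℕ) : ℤ) + 1, 0)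
        refine ⟨max L w.length, fun i hi => ?_⟩
        rcases Nat.lt_or_ge i (n + 1) with h | h
        · obtain ⟨w', h1, h2⟩ := hL i (by omega)
          exact ⟨w', h1.trans (le_max_left _ _), h2⟩
        · obtain rfl : i = n + 1 := by omega
          exact ⟨w, le_max_right _ _, hw⟩
    exact h1 _
  choose t t' ht1 ht2 ht3 ht4 using fun k => swap_step hpq catMatrix M hM k L hL
  have hfin : Finite {x : List (Option (Sg q) × Option (Sg q)) | x.length ≤ L + Fintype.card σ} :=
    (List.finite_length_le _ _).to_subtype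
  obtain ⟨k, k', hkk, hkeq⟩ := Finite.exists_ne_map_eq_of_infinite
    (fun k : ℕ => ((⟨t k, ht1 k⟩, ⟨t' k, ht2 k⟩) :
      {x : List (Option (Sg q) × Option (Sg q)) | x.length ≤ L + Fintype.card σ} ×
      {x : List (Option (Sg q) × Option (Sg q)) | x.length ≤ L + Fintype.card σ}))
  wlog hlt : k < k' generalizing k k'
  · exact this k' k hkk.symm hkeq.symm (lt_of_le_of_ne (not_lt.1 hlt) hkk.symm)
  have hte : t k = t k' := congrArg Subtype.val (congrArg Prod.fst hkeq)
  have hte' : t' k = t' k' := congrArg Subtype.val (congrArg Prod.snd hkeq)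
  set d := vp p ((t' k).map Prod.fst) - vp p ((t k).map Prod.fst) with hd
  set e := vp p ((t' k).map Prod.snd) - vp p ((t k).map Prod.snd) with he
  have hd0 : d ≠ 0 := ht3 k
  have h1 : act catMatrix (Cn p q k d) = Cn p q k e := ht4 k
  have h2 : act catMatrix (Cn p q k' d) = Cn p q k' e := by
    have := ht4 k'
    rw [← hte, ← hte'] at this
    exact this
  obtain ⟨j, rfl⟩ : ∃ j, k' = k + (j + 1) := ⟨k' - k - 1, by omega⟩
  rw [Cn_Cn p q k (j + 1) d, Cn_Cn p q k (j + 1) e, Cn_U p q j, Cn_U p q j, act_add, act_smul,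
    act_smul, h1, add_left_inj] at h2
  have hU : U p q (j + 1) ≠ 0 := by
    intro h0
    have h3 := U_coprime hcop j
    rw [h0] at h3
    exact hqu (isCoprime_zero_left.1 h3)
  have h3 : act catMatrix (Cm p q (Cn p q k d)) = Cm p q (Cn p q k e) := smul_right_injective _ hU h2
  rw [← h1] at h3
  have h4 := not_comm hq1 _ h3
  have h5 : Cn p q k d = Cn p q k 0 := by rw [h4, Cn_zero]
  exact hd0 (Cn_injective hq0 k h5)

/-- **Main result.** There is an Anosov matrix `A ∈ SL(2,ℤ)`, the matrix of the cat map, which is not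
FA-recognizable with respect to any Nies-Semukhin presentation `ψ_{p,q}`. -/
theorem result : ∃ A : Matrix.SpecialLinearGroup (Fin 2) ℤ, 2 < |(A : Matrix (Fin 2) (Fin 2) ℤ).trace| ∧
    ∀ p q : ℤ, (p, q) ∈ IndexSet → ¬ MatrixRecognizable p q (A : Matrix (Fin 2) (Fin 2) ℤ) := by
  refine ⟨⟨catMatrix, ?_⟩, ?_, fun p q h => not_recognizable h⟩
  · rw [catMatrix, Matrix.det_fin_two_of]
    norm_num
  · show 2 < |catMatrix.trace|
    rw [catMatrix, Matrix.trace_fin_two_of]
    norm_num

end Pool.Agent.Results.MP_334179_al.CatMap
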